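import Pool.Agent.Y457.PM.B

/-!
# Exponentially many permanents of sign matrices
-/

set_option autoImplicit false

namespace Pool.Agent.Y457.PM

open Finset

/-- The big matrix: free first row, staircase below. -/
def big (N C : ℕ) (S : Finset ℕ) : Matrix (Fin (N + 1)) (Fin (N + 1)) ℤ :=
  fun i j => if (i : ℕ) = 0 then (if (j : ℕ) ∈ S then -1 else 1)
    else (if (j : ℕ) < (if (i : ℕ) - 1 < C then (i : ℕ) + 2 else (i : ℕ) + 1) then -1 else 1)

theorem big_pm (N C : ℕ) (S : Finset ℕ) (i j : Fin (N + 1)) :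
    big N C S i j = 1 ∨ big N C S i j = -1 := by
  unfold big
  split_ifs <;> simp

/-- Cofactors of the first row. -/
def cof (N C : ℕ) (j : Fin (N + 1)) : ℤ :=
  ((big N C ∅).submatrix (Fin.succAbove 0) j.succAbove).permanent

theorem big_per (N C : ℕ) (S : Finset ℕ) :
    (big N C S).permanent = ∑ j : Fin (N + 1), (if (j : ℕ) ∈ S then -1 else 1) * cof N C j := by
  rw [per_row _ 0]
  refine Finset.sum_congr rfl fun j _ => ?_
  congr 1

theorem cof_eq (N C g : ℕ) (hg : g < C) (j : Fin (N + 1)) (hj : (j : ℕ) = g + 2) :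
    cof N C j = (stair N (fun k => cb g C k)).permanent := by
  unfold cof
  congr 1
  ext k l
  have hk : (((0 : Fin (N + 1)).succAbove k : Fin (N + 1)) : ℕ) = k + 1 := by simp
  have hl : ((j.succAbove l : Fin (N + 1)) : ℕ) =
      if (l : ℕ) < g + 2 then (l : ℕ) else l + 1 := by
    simp only [Fin.succAbove, Fin.lt_def, Fin.val_castSucc, hj]
    split_ifs <;> simp
  simp only [Matrix.submatrix_apply, big, stair, cb, hk, hl]
  rw [if_neg (by omega)]
  congr 1
  simp only [eq_iff_iff]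
  split_ifs <;> omega

theorem sum_inj (m : ℕ) (w : ℕ → ℤ)
    (hw : ∀ k < m, ∃ t : ℤ, ¬ ((3 : ℤ) ∣ t) ∧ w k = 3 ^ (2 * k + 1) * t)
    (K K' : Finset ℕ) (hK : K ⊆ range m) (hK' : K' ⊆ range m)
    (h : ∑ k ∈ K, w k = ∑ k ∈ K', w k) : K = K' := by
  by_contra hne
  set c : ℕ → ℤ := fun k => (if k ∈ K then 1 else 0) - (if k ∈ K' then 1 else 0) with hc
  have hsum : ∑ k ∈ range m, c k * w k = 0 := by
    have h1 : ∀ L : Finset ℕ, L ⊆ range m →
        ∑ k ∈ range m, (if k ∈ L then (1 : ℤ) else 0) * w k = ∑ k ∈ L, w k := by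
      intro L hL
      simp only [ite_mul, one_mul, zero_mul]
      rw [← Finset.sum_filter]
      congr 1
      ext k
      simp only [mem_filter, mem_range]
      constructor
      · exact fun hk => hk.2
      · exact fun hk => ⟨Finset.mem_range.mp (hL hk), hk⟩
    simp only [hc, sub_mul, Finset.sum_sub_distrib]
    rw [h1 K hK, h1 K' hK', h, sub_self]
  have hD : (symmDiff K K').Nonempty := by
    rw [Finset.nonempty_iff_ne_empty]
    intro h0
    exact hne (symmDiff_eq_bot.mp h0)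
  set k0 := (symmDiff K K').min' hD with hk0
  have hmem : k0 ∈ symmDiff K K' := Finset.min'_mem _ hD
  have hlt : ∀ k, k < k0 → c k = 0 := by
    intro k hk
    have hk' : k ∉ symmDiff K K' := fun hk2 => absurd (Finset.min'_le _ k hk2) (not_le.mpr hk)
    rw [Finset.mem_symmDiff] at hk'
    simp only [hc]
    by_cases h1 : k ∈ K <;> by_cases h2 : k ∈ K' <;> simp [h1, h2] at hk' ⊢
  have hk0m : k0 < m := by
    rw [Finset.mem_symmDiff] at hmem
    rcases hmem with h1 | h1
    · exact Finset.mem_range.mp (hK h1.1)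
    · exact Finset.mem_range.mp (hK' h1.1)
  have hck0 : c k0 = 1 ∨ c k0 = -1 := by
    rw [Finset.mem_symmDiff] at hmem
    simp only [hc]
    rcases hmem with h1 | h1
    · left
      simp [h1.1, h1.2]
    · right
      simp [h1.1, h1.2]
  rw [← Finset.add_sum_erase _ _ (Finset.mem_range.mpr hk0m)] at hsum
  have hdvd : (3 : ℤ) ^ (2 * k0 + 2) ∣ ∑ k ∈ (range m).erase k0, c k * w k := by
    refine Finset.dvd_sum fun k hk => ?_
    have hkne := Finset.ne_of_mem_erase hk
    have hkm := Finset.mem_range.mp (Finset.mem_of_mem_erase hk)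
    rcases lt_or_gt_of_ne hkne with h1 | h1
    · rw [hlt k h1]
      simp
    · obtain ⟨t, _, ht⟩ := hw k hkm
      rw [ht]
      exact ((pow_dvd_pow 3 (by omega)).mul_right t).mul_left _
  obtain ⟨t, ht3, ht⟩ := hw k0 hk0m
  have h2 : (3 : ℤ) ^ (2 * k0 + 2) ∣ c k0 * w k0 := by
    have : c k0 * w k0 = -∑ k ∈ (range m).erase k0, c k * w k := by linarith
    rw [this]
    exact (dvd_neg).mpr hdvd
  have h3 : (3 : ℤ) ^ (2 * k0 + 2) ∣ 3 ^ (2 * k0 + 1) * t := by
    rcases hck0 with h4 | h4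
    · rw [h4, one_mul, ht] at h2
      exact h2
    · rw [h4, neg_one_mul, dvd_neg, ht] at h2
      exact h2
  have h5 : (3 : ℤ) ^ (2 * k0 + 2) = 3 ^ (2 * k0 + 1) * 3 := by ring
  rw [h5] at h3
  exact ht3 (Int.dvd_of_mul_dvd_mul_left (by positivity) h3)

theorem finite_vals (n : ℕ) : {p : ℤ | ∃ A : Matrix (Fin n) (Fin n) ℤ,
    (∀ i j, A i j = 1 ∨ A i j = -1) ∧ A.permanent = p}.Finite := by
  have : {p : ℤ | ∃ A : Matrix (Fin n) (Fin n) ℤ,
    (∀ i j, A i j = 1 ∨ A i j = -1) ∧ A.permanent = p} ⊆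
    Set.range (fun f : Fin n → Fin n → Bool =>
      Matrix.permanent (Matrix.of fun i j => if f i j then (1 : ℤ) else -1)) := by
    rintro p ⟨A, hA, rfl⟩
    refine ⟨fun i j => decide (A i j = 1), ?_⟩
    beta_reduce
    congr 1
    ext i j
    simp only [Matrix.of_apply, decide_eq_true_eq]
    rcases hA i j with h | h
    · rw [if_pos h, h]
    · rw [if_neg (by rw [h]; decide), h]
  exact (Set.finite_range _).subset this

theorem lower (N m : ℕ) (hm : 6 * m ≤ N) :
    2 ^ m ≤ Set.ncard {p : ℤ | ∃ A : Matrix (Fin (N + 1)) (Fin (N + 1)) ℤ,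
      (∀ i j, A i j = 1 ∨ A i j = -1) ∧ A.permanent = p} := by
  classical
  set w : ℕ → ℤ := fun k => if h : 2 * k + 3 < N + 1 then cof N (4 * m) ⟨2 * k + 3, h⟩ else 0
    with hwdef
  have hw : ∀ k < m, ∃ t : ℤ, ¬ ((3 : ℤ) ∣ t) ∧ w k = 3 ^ (2 * k + 1) * t := by
    intro k hk
    obtain ⟨t, ht, h⟩ := cof_val N (2 * k + 1) (4 * m) ⟨k, rfl⟩ (by omega) (by omega)
    refine ⟨t, ht, ?_⟩
    have hlt : 2 * k + 3 < N + 1 := by omega
    simp only [hwdef]
    rw [dif_pos hlt, cof_eq N (4 * m) (2 * k + 1) (by omega) _ rfl, h]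
  set F : Finset ℕ → ℤ := fun K => (big N (4 * m) (K.image fun k => 2 * k + 3)).permanent
    with hF
  have hper : ∀ K ⊆ range m, F K = ∑ j : Fin (N + 1), cof N (4 * m) j - 2 * ∑ k ∈ K, w k := by
    intro K hK
    simp only [hF]
    rw [big_per]
    have h1 : ∀ j : Fin (N + 1), (if (j : ℕ) ∈ K.image (fun k => 2 * k + 3) then (-1 : ℤ) else 1) *
        cof N (4 * m) j = cof N (4 * m) j -
        2 * (if (j : ℕ) ∈ K.image (fun k => 2 * k + 3) then cof N (4 * m) j else 0) := by
      intro j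
      split_ifs <;> ring
    rw [Finset.sum_congr rfl fun j _ => h1 j, Finset.sum_sub_distrib, ← Finset.mul_sum]
    congr 2
    rw [← Finset.sum_filter]
    symm
    refine Finset.sum_bij (fun k _ => (Fin.ofNat (N + 1) (2 * k + 3))) ?_ ?_ ?_ ?_
    · intro k hk
      have hkm := Finset.mem_range.mp (hK hk)
      simp only [mem_filter, mem_univ, true_and, Fin.val_ofNat, mem_image]
      exact ⟨k, hk, (Nat.mod_eq_of_lt (by omega)).symm⟩
    · intro k hk k' hk' h
      have hkm := Finset.mem_range.mp (hK hk)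
      have hkm' := Finset.mem_range.mp (hK hk')
      have h2 := congrArg (Fin.val) h
      simp only [Fin.val_ofNat] at h2
      rw [Nat.mod_eq_of_lt (by omega), Nat.mod_eq_of_lt (by omega)] at h2
      omega
    · intro j hj
      simp only [mem_filter, mem_univ, true_and, mem_image] at hj
      obtain ⟨k, hk, hkj⟩ := hj
      have hkm := Finset.mem_range.mp (hK hk)
      refine ⟨k, hk, ?_⟩
      apply Fin.ext
      simp only [Fin.val_ofNat]
      rw [Nat.mod_eq_of_lt (by omega), hkj]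
    · intro k hk
      have hkm := Finset.mem_range.mp (hK hk)
      have hlt : 2 * k + 3 < N + 1 := by omega
      simp only [hwdef]
      rw [dif_pos hlt]
      congr 1
      apply Fin.ext
      simp only [Fin.val_ofNat]
      rw [Nat.mod_eq_of_lt hlt]
  have hinj : Set.InjOn F ((range m).powerset : Set (Finset ℕ)) := by
    intro K hK K' hK' h
    have hK1 : K ⊆ range m := Finset.mem_powerset.mp (Finset.mem_coe.mp hK)
    have hK2 : K' ⊆ range m := Finset.mem_powerset.mp (Finset.mem_coe.mp hK')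
    have h1 : F K = F K' := h
    rw [hper K hK1, hper K' hK2] at h1
    exact sum_inj m w hw K K' hK1 hK2 (by linarith)
  have hsub : F '' ((range m).powerset : Set (Finset ℕ)) ⊆
      {p : ℤ | ∃ A : Matrix (Fin (N + 1)) (Fin (N + 1)) ℤ,
      (∀ i j, A i j = 1 ∨ A i j = -1) ∧ A.permanent = p} := by
    rintro p ⟨K, _, rfl⟩
    exact ⟨big N (4 * m) (K.image fun k => 2 * k + 3), big_pm _ _ _, rfl⟩
  have h1 := Set.ncard_le_ncard hsub (finite_vals (N + 1))
  rw [Set.InjOn.ncard_image hinj, Set.ncard_coe_finset, Finset.card_powerset,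
    Finset.card_range] at h1
  exact h1

theorem main : ∃ c : ℝ, 1 < c ∧ ∃ N : ℕ, ∀ n : ℕ, N ≤ n →
      c ^ n ≤ ((Set.ncard {p : ℤ | ∃ A : Matrix (Fin n) (Fin n) ℤ,
        (∀ i j, A i j = 1 ∨ A i j = -1) ∧ A.permanent = p} : ℕ) : ℝ) := by
  refine ⟨21 / 20, by norm_num, 13, ?_⟩
  intro n hn
  obtain ⟨N, rfl⟩ : ∃ N, n = N + 1 := ⟨n - 1, by omega⟩
  set m := N / 6 with hm
  have h1 := lower N m (by omega)
  have h2 : ((21 : ℝ) / 20) ^ (N + 1) ≤ 2 ^ m := by
    calc ((21 : ℝ) / 20) ^ (N + 1) ≤ ((21 : ℝ) / 20) ^ (12 * m) :=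
          pow_le_pow_right₀ (by norm_num) (by omega)
      _ = (((21 : ℝ) / 20) ^ 12) ^ m := by rw [pow_mul]
      _ ≤ 2 ^ m := pow_le_pow_left₀ (by positivity) (by norm_num) m
  refine h2.trans ?_
  exact_mod_cast h1

end Pool.Agent.Y457.PM
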