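import Mathlib

/-!
# Permanents of staircase sign matrices modulo odd numbers
-/

set_option autoImplicit false

namespace Pool.Agent.Y457.PM

open Finset

section Laplace

variable {R : Type*} [CommRing R]

theorem per_col_zero {n : ℕ} (A : Matrix (Fin (n + 1)) (Fin (n + 1)) R) :
    A.permanent = ∑ i : Fin (n + 1), A i 0 * (A.submatrix i.succAbove Fin.succ).permanent := by
  unfold Matrix.permanent
  rw [Finset.univ_perm_fin_succ, ← Finset.univ_product_univ]
  simp only [Finset.sum_map, Equiv.toEmbedding_apply, Finset.sum_product, Matrix.submatrix,
    Matrix.of_apply]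
  refine Finset.sum_congr rfl fun i _ => Fin.cases ?_ (fun i => ?_) i
  · simp only [Fin.prod_univ_succ, Finset.mul_sum,
      Equiv.Perm.decomposeFin_symm_apply_zero, Equiv.swap_self, Equiv.refl_apply,
      Equiv.Perm.decomposeFin_symm_apply_succ, Fin.succAbove_zero]
  · rw [Finset.mul_sum]
    have hbij := (Group.mulLeft_bijective (i.cycleRange)).sum_comp
      (fun τ : Equiv.Perm (Fin n) => A i.succ 0 * ∏ j, A (i.succ.succAbove (τ j)) j.succ)
    rw [← hbij]
    refine Finset.sum_congr rfl fun σ _ => ?_
    simp only [Fin.prod_univ_succ, Equiv.Perm.coe_mul, Function.comp_apply,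
      Fin.succAbove_cycleRange, Equiv.Perm.decomposeFin_symm_apply_zero,
      Equiv.Perm.decomposeFin_symm_apply_succ]

theorem per_col {n : ℕ} (A : Matrix (Fin (n + 1)) (Fin (n + 1)) R) (c : Fin (n + 1)) :
    A.permanent = ∑ i : Fin (n + 1), A i c * (A.submatrix i.succAbove c.succAbove).permanent := by
  have h := Matrix.permanent_permute_rows c.cycleRange.symm A
  rw [← h, per_col_zero]
  refine Finset.sum_congr rfl fun i _ => ?_
  have h1 : (A.submatrix id c.cycleRange.symm) i 0 = A i c := by
    simp [Matrix.submatrix_apply]
  rw [h1]
  congr 2
  ext a b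
  simp [Matrix.submatrix_apply]

theorem per_row {n : ℕ} (A : Matrix (Fin (n + 1)) (Fin (n + 1)) R) (r : Fin (n + 1)) :
    A.permanent = ∑ j : Fin (n + 1), A r j * (A.submatrix r.succAbove j.succAbove).permanent := by
  rw [← Matrix.permanent_transpose, per_col _ r]
  refine Finset.sum_congr rfl fun j _ => ?_
  rw [Matrix.transpose_apply, ← Matrix.transpose_submatrix, Matrix.permanent_transpose]

/-- Changing one entry of row `r`. -/
theorem per_sub {n : ℕ} (A B : Matrix (Fin (n + 1)) (Fin (n + 1)) R) (r c : Fin (n + 1)) (t : R)
    (hrow : ∀ i j, i ≠ r → A i j = B i j) (hr : ∀ j, j ≠ c → A r j = B r j)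
    (hc : A r c = B r c + t) :
    A.permanent = B.permanent + t * (A.submatrix r.succAbove c.succAbove).permanent := by
  rw [per_row A r, per_row B r]
  have hm : ∀ j : Fin (n + 1), (B.submatrix r.succAbove j.succAbove) =
      (A.submatrix r.succAbove j.succAbove) := by
    intro j
    ext a b
    simp only [Matrix.submatrix_apply]
    exact (hrow _ _ (Fin.succAbove_ne r a)).symm
  rw [← Finset.add_sum_erase _ _ (Finset.mem_univ c),
    ← Finset.add_sum_erase (a := c) _ _ (Finset.mem_univ c), hc, hm c]
  have : ∑ x ∈ univ.erase c, A r x * (A.submatrix r.succAbove x.succAbove).permanent =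
      ∑ x ∈ univ.erase c, B r x * (B.submatrix r.succAbove x.succAbove).permanent := by
    refine Finset.sum_congr rfl fun x hx => ?_
    rw [hr x (Finset.ne_of_mem_erase hx), hm x]
  rw [this]
  ring

end Laplace

/-- Staircase sign matrix: `-1` in the first `b i` entries of row `i`. -/
def stair (N : ℕ) (b : Fin N → ℕ) : Matrix (Fin N) (Fin N) ℤ :=
  fun i j => if (j : ℕ) < b i then -1 else 1

/-- Falling product. -/
def fal (N : ℕ) (x : ℤ) : ℤ := ∏ i ∈ range N, (x - i)

theorem fal_succ (N : ℕ) (x : ℤ) : fal (N + 1) x = fal N x * (x - N) := by
  simp [fal, Finset.prod_range_succ]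

theorem fal_succ' (N : ℕ) (x : ℤ) : fal (N + 1) (x + 1) = (x + 1) * fal N x := by
  unfold fal
  rw [Finset.prod_range_succ']
  simp only [Nat.cast_add, Nat.cast_one, Nat.cast_zero, sub_zero]
  rw [mul_comm]
  congr 1
  refine Finset.prod_congr rfl fun i _ => ?_
  ring

/-- The alternating sum `∑_{x<q} (-1)^x f x`. -/
def alt (q : ℕ) (f : ℤ → ℤ) : ℤ := ∑ x ∈ range q, (-1) ^ x * f x

theorem alt_tele (q : ℕ) (f : ℤ → ℤ) :
    alt q (fun x => f (x + 1) + f x) = f 0 - (-1) ^ q * f q := by
  induction q with
  | zero => simp [alt]
  | succ q ih =>
    have : alt (q + 1) (fun x => f (x + 1) + f x) =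
        alt q (fun x => f (x + 1) + f x) + (-1) ^ q * (f (q + 1) + f q) := by
      simp [alt, Finset.sum_range_succ]
    rw [this, ih]
    push_cast
    ring

theorem alt_fal (q : ℕ) (hq : Odd q) (N : ℕ) :
    (-2) ^ N * alt q (fal N) ≡ (N.factorial : ℤ) [ZMOD q] := by
  induction N with
  | zero =>
    have : alt q (fal 0) = 1 := by
      obtain ⟨k, rfl⟩ := hq
      induction k with
      | zero => simp [alt, fal]
      | succ k ih =>
        have h2 : 2 * (k + 1) + 1 = (2 * k + 1) + 1 + 1 := by ring
        rw [h2]
        simp only [alt, fal, Finset.sum_range_succ _ (2 * k + 1 + 1),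
          Finset.sum_range_succ _ (2 * k + 1)] at *
        rw [ih]
        simp [pow_succ]
    rw [this]
    simp
  | succ N ih =>
    have h1 : 2 * alt q (fal (N + 1)) + (N + 1) * alt q (fal N) = fal (N + 1) q := by
      have h2 := alt_tele q (fal (N + 1))
      have h3 : (-1 : ℤ) ^ q = -1 := Odd.neg_one_pow hq
      have h4 : fal (N + 1) 0 = 0 := by
        unfold fal
        exact Finset.prod_eq_zero (Finset.mem_range.mpr (Nat.succ_pos N)) (by simp)
      rw [h3, h4] at h2
      have h5 : alt q (fun x => fal (N + 1) (x + 1) + fal (N + 1) x) =
          2 * alt q (fal (N + 1)) + (N + 1) * alt q (fal N) := by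
        unfold alt
        rw [Finset.mul_sum, Finset.mul_sum, ← Finset.sum_add_distrib]
        refine Finset.sum_congr rfl fun x _ => ?_
        beta_reduce
        rw [fal_succ', fal_succ]
        ring
      rw [h5] at h2
      rw [h2]
      ring
    have h6 : (q : ℤ) ∣ fal (N + 1) q := by
      unfold fal
      refine dvd_trans ?_ (Finset.dvd_prod_of_mem _ (Finset.mem_range.mpr (Nat.succ_pos N)))
      simp
    have h7 : (-2 : ℤ) ^ (N + 1) * alt q (fal (N + 1)) =
        (N + 1) * ((-2) ^ N * alt q (fal N)) - (-2) ^ N * fal (N + 1) q := by
      rw [← h1]
      ring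
    rw [h7]
    have h8 : ((N + 1).factorial : ℤ) = (N + 1) * (N.factorial : ℤ) - (-2) ^ N * 0 := by
      rw [Nat.factorial_succ]
      push_cast
      ring
    rw [h8]
    exact ((ih.mul_left _).sub ((Int.modEq_zero_iff_dvd.mpr h6).mul_left _))

/-- Permanent of a staircase sign matrix modulo an odd number. -/
theorem per_stair (q : ℕ) (hq : Odd q) (N : ℕ) : ∀ b : Fin N → ℕ, Monotone b → (∀ i, b i ≤ N) →
    (stair N b).permanent ≡
      (-2) ^ N * alt q (fun x => ∏ i : Fin N, (x + b i - i)) [ZMOD q] := by
  induction N with
  | zero =>
    intro b _ _
    have h := alt_fal q hq 0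
    simp only [Matrix.permanent_isEmpty]
    have h1 : (fun x : ℤ => ∏ i : Fin 0, (x + b i - i)) = fal 0 := by
      funext x
      simp [fal]
    rw [h1]
    simpa using h.symm
  | succ M ihM =>
    -- inner induction on the sum
    have key : ∀ (s : ℕ) (b : Fin (M + 1) → ℕ), Monotone b → (∀ i, b i ≤ M + 1) →
        ∑ i, b i = s → (stair (M + 1) b).permanent ≡
      (-2) ^ (M + 1) * alt q (fun x => ∏ i : Fin (M + 1), (x + b i - i)) [ZMOD q] := by
      intro s
      induction s with
      | zero =>
        intro b hb hbN hs
        have hb0 : ∀ i, b i = 0 := by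
          intro i
          have := (Finset.sum_eq_zero_iff.mp hs) i (Finset.mem_univ i)
          exact this
        have h1 : (stair (M + 1) b) = fun _ _ => 1 := by
          funext i j
          simp [stair, hb0]
        have h2 : (stair (M + 1) b).permanent = ((M + 1).factorial : ℤ) := by
          rw [h1]
          simp [Matrix.permanent, Fintype.card_perm]
        have h3 : (fun x : ℤ => ∏ i : Fin (M + 1), (x + b i - i)) = fal (M + 1) := by
          funext x
          unfold fal
          rw [← Fin.prod_univ_eq_prod_range (fun i : ℕ => x - (i : ℤ)) (M + 1)]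
          refine Finset.prod_congr rfl fun i _ => ?_
          simp [hb0]
        rw [h2, h3]
        exact (alt_fal q hq (M + 1)).symm
      | succ s ihs =>
        intro b hb hbN hs
        -- the least index with positive value
        have hex : ∃ i : Fin (M + 1), 0 < b i := by
          by_contra hcon
          push Not at hcon
          have : ∑ i, b i = 0 := Finset.sum_eq_zero fun i _ => Nat.le_zero.mp (hcon i)
          omega
        obtain ⟨i0, hi0, hmin⟩ : ∃ i0 : Fin (M + 1), 0 < b i0 ∧ ∀ k, k < i0 → b k = 0 := by
          classical
          have hne : (Finset.univ.filter fun i : Fin (M + 1) => 0 < b i).Nonempty := by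
            obtain ⟨i, hi⟩ := hex
            exact ⟨i, by simp [hi]⟩
          refine ⟨(Finset.univ.filter fun i : Fin (M + 1) => 0 < b i).min' hne, ?_, ?_⟩
          · have := Finset.min'_mem _ hne
            simpa using this
          · intro k hk
            by_contra hcon
            have hk2 : k ∈ (Finset.univ.filter fun i : Fin (M + 1) => 0 < b i) := by
              simp
              omega
            exact absurd (Finset.min'_le _ k hk2) (not_le.mpr hk)
        have hcb : b i0 - 1 < M + 1 := by
          have := hbN i0
          omega
        set c : Fin (M + 1) := ⟨b i0 - 1, hcb⟩ with hc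
        set b' : Fin (M + 1) → ℕ := Function.update b i0 (b i0 - 1) with hb'
        set b'' : Fin M → ℕ := fun k => b (i0.succAbove k) - (if (k : ℕ) < i0 then 0 else 1)
          with hb''
        have hb'mono : Monotone b' := by
          intro x y hxy
          simp only [hb', Function.update_apply]
          split_ifs with h1 h2 h2
          · exact le_refl _
          · subst h1
            have := hb hxy
            omega
          · subst h2
            have : x < y := lt_of_le_of_ne hxy h1
            rw [hmin x this]
            omega
          · exact hb hxy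
        have hb'N : ∀ i, b' i ≤ M + 1 := by
          intro i
          simp only [hb', Function.update_apply]
          split_ifs with h1
          · have := hbN i0
            omega
          · exact hbN i
        have hb's : ∑ i, b' i = s := by
          have h1 : ∑ i, b i = b i0 + ∑ i ∈ univ.erase i0, b i :=
            (Finset.add_sum_erase _ _ (Finset.mem_univ i0)).symm
          have h2 : ∑ i, b' i = b' i0 + ∑ i ∈ univ.erase i0, b' i :=
            (Finset.add_sum_erase _ _ (Finset.mem_univ i0)).symm
          have h3 : ∑ i ∈ univ.erase i0, b' i = ∑ i ∈ univ.erase i0, b i := by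
            refine Finset.sum_congr rfl fun i hi => ?_
            simp [hb', Finset.ne_of_mem_erase hi]
          have h4 : b' i0 = b i0 - 1 := by simp [hb']
          rw [h2, h3, h4]
          omega
        have hsa : ∀ k : Fin M, ((i0.succAbove k : Fin (M + 1)) : ℕ) =
            if (k : ℕ) < i0 then (k : ℕ) else k + 1 := by
          intro k
          simp only [Fin.succAbove, Fin.lt_def, Fin.val_castSucc]
          split_ifs <;> simp
        have hbpos : ∀ k : Fin M, ¬ ((k : ℕ) < i0) → b i0 ≤ b (i0.succAbove k) := by
          intro k hk
          apply hb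
          rw [Fin.le_def, hsa k, if_neg hk]
          omega
        have hb0k : ∀ k : Fin M, ((k : ℕ) < i0) → b (i0.succAbove k) = 0 := by
          intro k hk
          apply hmin
          rw [Fin.lt_def, hsa k, if_pos hk]
          exact hk
        have hb''mono : Monotone b'' := by
          intro x y hxy
          have hxy' : (x : ℕ) ≤ y := hxy
          simp only [hb'']
          by_cases hx : (x : ℕ) < i0
          · rw [if_pos hx, hb0k x hx]
            omega
          · have hy : ¬ ((y : ℕ) < i0) := by omega
            rw [if_neg hx, if_neg hy]
            have : b (i0.succAbove x) ≤ b (i0.succAbove y) := by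
              apply hb
              rw [Fin.le_def, hsa, hsa, if_neg hx, if_neg hy]
              omega
            omega
        have hb''N : ∀ k, b'' k ≤ M := by
          intro k
          simp only [hb'']
          by_cases hk : (k : ℕ) < i0
          · rw [hb0k k hk]
            omega
          · rw [if_neg hk]
            have := hbN (i0.succAbove k)
            omega
        have hminor : (stair (M + 1) b).submatrix i0.succAbove c.succAbove = stair M b'' := by
          ext k l
          simp only [Matrix.submatrix_apply, stair, hb'']
          have hcl : ((c.succAbove l : Fin (M + 1)) : ℕ) =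
              if (l : ℕ) < b i0 - 1 then (l : ℕ) else l + 1 := by
            simp only [Fin.succAbove, Fin.lt_def, Fin.val_castSucc, hc]
            split_ifs <;> simp
          rw [hcl]
          by_cases hk : (k : ℕ) < i0
          · rw [hb0k k hk]
            simp
          · have h1 := hbpos k hk
            rw [if_neg hk]
            congr 1
            simp only [eq_iff_iff]
            split_ifs <;> omega
        have hper := per_sub (stair (M + 1) b) (stair (M + 1) b') i0 c (-2)
          (by
            intro i j hi
            simp [stair, hb', hi])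
          (by
            intro j hj
            have hj' : (j : ℕ) ≠ b i0 - 1 := by
              intro h
              exact hj (Fin.ext h)
            simp only [stair, hb', Function.update_self]
            congr 1
            simp only [eq_iff_iff]
            omega)
          (by
            simp only [stair, hb', Function.update_self, hc]
            rw [if_pos (by omega), if_neg (by omega)]
            norm_num)
        rw [hper, hminor]
        have ih1 := ihs b' hb'mono hb'N hb's
        have ih2 := ihM b'' hb''mono hb''N
        have hsum : alt q (fun x => ∏ i : Fin (M + 1), (x + b i - i)) =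
            alt q (fun x => ∏ i : Fin (M + 1), (x + b' i - i)) +
            alt q (fun x => ∏ i : Fin M, (x + b'' i - i)) := by
          unfold alt
          rw [← Finset.sum_add_distrib]
          refine Finset.sum_congr rfl fun x _ => ?_
          rw [← mul_add]
          congr 1
          beta_reduce
          rw [Fin.prod_univ_succAbove _ i0, Fin.prod_univ_succAbove _ i0]
          have e1 : ∀ k : Fin M, ((x : ℤ) + b' (i0.succAbove k) - (i0.succAbove k : Fin (M + 1))) =
              (x : ℤ) + b (i0.succAbove k) - (i0.succAbove k : Fin (M + 1)) := by
            intro k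
            simp [hb', Fin.succAbove_ne]
          have e2 : ∀ k : Fin M, ((x : ℤ) + b'' k - k) =
              (x : ℤ) + b (i0.succAbove k) - (i0.succAbove k : Fin (M + 1)) := by
            intro k
            simp only [hb'']
            rw [hsa k]
            by_cases hk : (k : ℕ) < i0
            · rw [if_pos hk, if_pos hk]
              simp
            · have h1 := hbpos k hk
              rw [if_neg hk, if_neg hk]
              rw [Nat.cast_sub (by omega)]
              push_cast
              ring
          have e3 : ((b' i0 : ℕ) : ℤ) = (b i0 : ℤ) - 1 := by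
            simp only [hb', Function.update_self]
            rw [Nat.cast_sub (by omega)]
            simp
          simp only [e1, e2, e3]
          ring
        rw [hsum]
        have h9 : (-2 : ℤ) ^ (M + 1) * (alt q (fun x => ∏ i : Fin (M + 1), (x + b' i - i)) +
            alt q (fun x => ∏ i : Fin M, (x + b'' i - i))) =
            (-2) ^ (M + 1) * alt q (fun x => ∏ i : Fin (M + 1), (x + b' i - i)) +
            (-2) * ((-2) ^ M * alt q (fun x => ∏ i : Fin M, (x + b'' i - i))) := by
          ring
        rw [h9]
        exact ih1.add (ih2.mul_left _)
    intro b hb hbN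
    exact key _ b hb hbN rfl

end Pool.Agent.Y457.PM
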