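import Pool.Agent.Y457.PM.A

/-!
# Exact 3-adic valuation of the cofactors of a staircase sign matrix
-/

set_option autoImplicit false

namespace Pool.Agent.Y457.PM

open Finset

theorem alt_three (Q : ℕ) (f : ℤ → ℤ) :
    alt (3 * Q) f = ∑ z ∈ range Q, (-1) ^ z * (f (3 * z) - f (3 * z + 1) + f (3 * z + 2)) := by
  induction Q with
  | zero => simp [alt]
  | succ Q ih =>
    have h : 3 * (Q + 1) = 3 * Q + 1 + 1 + 1 := by ring
    rw [h, Finset.sum_range_succ, ← ih]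
    unfold alt
    rw [Finset.sum_range_succ, Finset.sum_range_succ, Finset.sum_range_succ]
    have h1 : (-1 : ℤ) ^ (3 * Q) = (-1) ^ Q := by
      rw [pow_mul]
      norm_num
    have h2 : (-1 : ℤ) ^ (3 * Q + 1) = -(-1) ^ Q := by
      rw [pow_succ, h1]
      ring
    have h3 : (-1 : ℤ) ^ (3 * Q + 1 + 1) = (-1) ^ Q := by
      rw [pow_succ, h2]
      ring
    rw [h1, h2, h3]
    push_cast
    ring

theorem odd_pow_mod_three (a : ℤ) (g : ℕ) (hg : Odd g) : a ^ g ≡ a [ZMOD 3] := by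
  obtain ⟨k, rfl⟩ := hg
  have h3 : a ^ 3 ≡ a [ZMOD 3] := by
    rcases (by omega : a % 3 = 0 ∨ a % 3 = 1 ∨ a % 3 = 2) with h | h | h
    · have : a ≡ 0 [ZMOD 3] := h
      exact (this.pow 3).trans this.symm
    · have : a ≡ 1 [ZMOD 3] := h
      exact ((this.pow 3).trans (by norm_num : (1 : ℤ) ^ 3 ≡ 1 [ZMOD 3])).trans this.symm
    · have : a ≡ 2 [ZMOD 3] := h
      exact ((this.pow 3).trans (by decide : (2 : ℤ) ^ 3 ≡ 2 [ZMOD 3])).trans this.symm
  induction k with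
  | zero => simp
  | succ k ih =>
    have e : a ^ (2 * (k + 1) + 1) = a ^ (2 * k + 1) * a ^ 2 := by ring
    rw [e]
    refine (ih.mul_right _).trans ?_
    have e2 : a * a ^ 2 = a ^ 3 := by ring
    rw [e2]
    exact h3

theorem alt_lin (Q : ℕ) (hQ : Odd Q) : 4 * alt Q (fun x => x + 1) = 2 * Q + 2 := by
  have h := alt_tele Q (fun x => 2 * x + 1)
  have h1 : alt Q (fun x => (fun x => 2 * x + 1) (x + 1) + (fun x => 2 * x + 1) x) =
      4 * alt Q (fun x => x + 1) := by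
    unfold alt
    rw [Finset.mul_sum]
    refine Finset.sum_congr rfl fun x _ => ?_
    ring
  rw [← h1, h, Odd.neg_one_pow hQ]
  ring

/-- The alternating sum has exact valuation `g`. -/
theorem alt_val (g b a : ℕ) (hg : Odd g) (hb : g + 1 ≤ b) (ha : g + 1 ≤ a) :
    ∃ T : ℤ, ¬ ((3 : ℤ) ∣ T) ∧
      alt (3 ^ (g + 1)) (fun x => (x + 3) ^ g * (x + 2) ^ b * (x + 1) ^ a) ≡ 3 ^ g * T
        [ZMOD ((3 ^ (g + 1) : ℕ) : ℤ)] := by
  refine ⟨∑ z ∈ range (3 ^ g), (-1) ^ z * (((z : ℤ) + 1) ^ g * (3 * z + 2) ^ b *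
      (3 * z + 1) ^ a), ?_, ?_⟩
  · intro hdvd
    have h1 : ∑ z ∈ range (3 ^ g), (-1) ^ z * (((z : ℤ) + 1) ^ g * (3 * z + 2) ^ b *
      (3 * z + 1) ^ a) ≡ 2 ^ b * alt (3 ^ g) (fun x => x + 1) [ZMOD 3] := by
      unfold alt
      rw [Finset.mul_sum]
      refine Int.ModEq.sum fun z _ => ?_
      have e1 : ((z : ℤ) + 1) ^ g ≡ (z : ℤ) + 1 [ZMOD 3] := odd_pow_mod_three _ g hg
      have e2 : (3 * (z : ℤ) + 2) ^ b ≡ 2 ^ b [ZMOD 3] := by
        apply Int.ModEq.pow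
        exact Int.modEq_iff_dvd.mpr ⟨-z, by ring⟩
      have e3 : (3 * (z : ℤ) + 1) ^ a ≡ 1 ^ a [ZMOD 3] := by
        apply Int.ModEq.pow
        exact Int.modEq_iff_dvd.mpr ⟨-z, by ring⟩
      have e4 := (((e1.mul e2).mul e3).mul_left ((-1) ^ z))
      refine e4.trans ?_
      have : (-1 : ℤ) ^ z * (((z : ℤ) + 1) * 2 ^ b * 1 ^ a) = 2 ^ b * ((-1) ^ z * ((z : ℤ) + 1)) := by
        rw [one_pow]
        ring
      rw [this]
    have hQ : Odd (3 ^ g) := Odd.pow (by decide)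
    have h2 := alt_lin (3 ^ g) hQ
    have h3 : (3 : ℤ) ∣ 2 ^ b * alt (3 ^ g) (fun x => x + 1) :=
      (Int.modEq_zero_iff_dvd).mp (h1.symm.trans (Int.modEq_zero_iff_dvd.mpr hdvd))
    have hp : Prime (3 : ℤ) := Int.prime_three
    rcases hp.dvd_or_dvd h3 with h4 | h4
    · have := hp.dvd_of_dvd_pow h4
      omega
    · have h5 : (3 : ℤ) ∣ ((3 ^ g : ℕ) : ℤ) := by
        obtain ⟨k, rfl⟩ := hg
        exact ⟨3 ^ (2 * k), by push_cast; ring⟩
      omega
  · have hq : 3 ^ (g + 1) = 3 * 3 ^ g := by ring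
    conv_lhs => rw [hq, alt_three]
    rw [Finset.mul_sum]
    refine Int.ModEq.sum fun z _ => ?_
    have hz1 : ((3 ^ (g + 1) : ℕ) : ℤ) ∣ (3 * (z : ℤ) + 1 + 2) ^ b := by
      push_cast
      have : (3 : ℤ) ∣ 3 * (z : ℤ) + 1 + 2 := ⟨z + 1, by ring⟩
      exact (pow_dvd_pow 3 hb).trans (pow_dvd_pow_of_dvd this b)
    have hz2 : ((3 ^ (g + 1) : ℕ) : ℤ) ∣ (3 * (z : ℤ) + 2 + 1) ^ a := by
      push_cast
      have : (3 : ℤ) ∣ 3 * (z : ℤ) + 2 + 1 := ⟨z + 1, by ring⟩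
      exact (pow_dvd_pow 3 ha).trans (pow_dvd_pow_of_dvd this a)
    have h1 : (3 * (z : ℤ) + 1 + 3) ^ g * (3 * (z : ℤ) + 1 + 2) ^ b * (3 * (z : ℤ) + 1 + 1) ^ a ≡ 0
        [ZMOD ((3 ^ (g + 1) : ℕ) : ℤ)] :=
      Int.modEq_zero_iff_dvd.mpr ((hz1.mul_left _).mul_right _)
    have h2 : (3 * (z : ℤ) + 2 + 3) ^ g * (3 * (z : ℤ) + 2 + 2) ^ b * (3 * (z : ℤ) + 2 + 1) ^ a ≡ 0
        [ZMOD ((3 ^ (g + 1) : ℕ) : ℤ)] :=
      Int.modEq_zero_iff_dvd.mpr (hz2.mul_left _)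
    have h3 : (3 * (z : ℤ) + 3) ^ g * (3 * (z : ℤ) + 2) ^ b * (3 * (z : ℤ) + 1) ^ a =
        3 ^ g * (((z : ℤ) + 1) ^ g * (3 * z + 2) ^ b * (3 * z + 1) ^ a) := by
      have : (3 * (z : ℤ) + 3) = 3 * (z + 1) := by ring
      rw [this, mul_pow]
      ring
    have h4 := ((((Int.ModEq.refl (3 ^ g * (((z : ℤ) + 1) ^ g * (3 * z + 2) ^ b *
      (3 * z + 1) ^ a))).sub h1).add h2).mul_left ((-1) ^ z))
    rw [h3]
    refine h4.trans ?_
    rw [sub_zero, add_zero]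
    have : (-1 : ℤ) ^ z * (3 ^ g * (((z : ℤ) + 1) ^ g * (3 * z + 2) ^ b * (3 * z + 1) ^ a)) =
      3 ^ g * ((-1) ^ z * (((z : ℤ) + 1) ^ g * (3 * z + 2) ^ b * (3 * z + 1) ^ a)) := by ring
    rw [this]

theorem prod_three (g b a : ℕ) (u v w : ℤ) :
    ∏ k ∈ range (g + b + a), (if k < g then u else if k < g + b then v else w) =
      u ^ g * v ^ b * w ^ a := by
  rw [Finset.prod_range_add, Finset.prod_range_add]
  congr 1
  · congr 1
    · rw [Finset.prod_congr rfl (g := fun _ => u)]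
      · simp
      · intro k hk
        rw [if_pos (Finset.mem_range.mp hk)]
    · rw [Finset.prod_congr rfl (g := fun _ => v)]
      · simp
      · intro k hk
        have := Finset.mem_range.mp hk
        rw [if_neg (by omega), if_pos (by omega)]
  · rw [Finset.prod_congr rfl (g := fun _ => w)]
    · simp
    · intro k hk
      rw [if_neg (by omega), if_neg (by omega)]

/-- Row thresholds of the cofactors. -/
def cb (g C : ℕ) (k : ℕ) : ℕ := if k < g then k + 3 else if k < C then k + 2 else k + 1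

/-- The cofactor has exact 3-adic valuation `g`. -/
theorem cof_val (N g C : ℕ) (hg : Odd g) (hC : 2 * g + 1 ≤ C) (hN : C + g + 1 ≤ N) :
    ∃ t : ℤ, ¬ ((3 : ℤ) ∣ t) ∧ (stair N (fun k => cb g C k)).permanent = 3 ^ g * t := by
  have hq : Odd (3 ^ (g + 1)) := Odd.pow (by decide)
  have h := per_stair (3 ^ (g + 1)) hq N (fun k : Fin N => cb g C k)
    (by
      intro x y hxy
      have hxy' : (x : ℕ) ≤ y := hxy
      simp only [cb]
      split_ifs <;> omega)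
    (by
      intro i
      have := i.isLt
      simp only [cb]
      split_ifs <;> omega)
  have hprod : (fun x : ℤ => ∏ i : Fin N, (x + (cb g C i : ℕ) - i)) =
      fun x => (x + 3) ^ g * (x + 2) ^ (C - g) * (x + 1) ^ (N - C) := by
    funext x
    have e : N = g + (C - g) + (N - C) := by omega
    rw [Fin.prod_univ_eq_prod_range (fun i : ℕ => x + (cb g C i : ℕ) - i) N]
    conv_lhs => rw [e]
    rw [← prod_three]
    refine Finset.prod_congr rfl fun k _ => ?_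
    simp only [cb]
    have e2 : g + (C - g) = C := by omega
    rw [e2]
    split_ifs <;> push_cast <;> ring
  rw [hprod] at h
  obtain ⟨T, hT, hmod⟩ := alt_val g (C - g) (N - C) hg (by omega) (by omega)
  have h2 := h.trans (hmod.mul_left ((-2) ^ N))
  obtain ⟨r, hr⟩ := Int.modEq_iff_dvd.mp h2.symm
  refine ⟨(-2) ^ N * T + 3 * r, ?_, ?_⟩
  · intro hd
    have h3 : (3 : ℤ) ∣ (-2) ^ N * T := by
      have := dvd_sub hd (Dvd.intro r rfl : (3 : ℤ) ∣ 3 * r)
      simpa using this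
    have hp : Prime (3 : ℤ) := Int.prime_three
    rcases hp.dvd_or_dvd h3 with h4 | h4
    · have := hp.dvd_of_dvd_pow h4
      omega
    · exact hT h4
  · push_cast at hr
    have : (stair N (fun k : Fin N => cb g C k)).permanent =
      (-2) ^ N * (3 ^ g * T) + 3 ^ (g + 1) * r := by linarith
    rw [this]
    ring

end Pool.Agent.Y457.PM
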